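import Pool.Agent.Helper21.MT9.Stmts

/-!
# TOP: the Lie theorem, after a change of basis
-/

set_option autoImplicit false

namespace MT

namespace Top9

variable {K : Type} [Field K] {n : ℕ}

/-- a symmetric or alternating non-degenerate form pairs the degrees -/
theorem exists_perm (ψ : Matrix (Fin n) (Fin n) K) (d : Fin n → ℤ) (hu : ψ.det ≠ 0)
    (hg : ∀ i j, ψ i j ≠ 0 → d i + d j = 0) : ∃ s : Equiv.Perm (Fin n), ∀ i, d (s i) = - d i := by
  classical
  rw [Matrix.det_apply] at hu
  obtain ⟨s, -, hs⟩ := Finset.exists_ne_zero_of_sum_ne_zero hu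
  refine ⟨s, fun i => ?_⟩
  have h1 : ψ (s i) i ≠ 0 := by
    intro h0
    have h2 : ∏ k, ψ (s k) k = 0 :=
      Finset.prod_eq_zero (f := fun k => ψ (s k) k) (Finset.mem_univ i) h0
    exact hs (by rw [h2, smul_zero])
  have := hg _ _ h1
  omega

/-- the data for the opposite grading -/
theorem neg {ε : K} {ψ : Matrix (Fin n) (Fin n) K} {d : Fin n → ℤ} {N : ℤ}
    {a : Submodule K (Matrix (Fin n) (Fin n) K)} (hT : TopD ε ψ d N a) :
    TopD ε ψ (fun j => - d j) N a where
  unit := hT.unit
  symm := hT.symm
  sign := hT.sign
  grad := by
    intro i j hij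
    have := hT.grad i j hij
    omega
  brk := hT.brk
  iso := hT.iso
  irr := hT.irr
  comp := by
    intro A hA x
    have h1 : cmp (fun j => - d j) x A = cmp d (-x) A := by
      ext i j
      simp only [cmp, Matrix.of_apply]
      by_cases h : d i - d j = -x
      · rw [if_pos h, if_pos (by omega)]
      · rw [if_neg h, if_neg (by omega)]
    rw [h1]
    exact hT.comp A hA _
  pos := hT.pos
  bd := by
    intro j
    rw [abs_neg]
    exact hT.bd j
  top := by
    obtain ⟨s, hs⟩ := exists_perm ψ d hT.unit hT.grad
    refine hT.top.trans ?_
    refine Finset.card_le_card_of_injOn s ?_ s.injective.injOn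
    intro j hj
    simp only [Finset.coe_filter, Finset.mem_univ, true_and, Set.mem_ofPred_eq] at hj ⊢
    rw [hs j, neg_neg, hj]
  inner := by
    obtain ⟨j, hj⟩ := hT.inner
    exact ⟨j, by rw [abs_neg]; exact hj⟩
  thin := by
    intro x hx hx0
    have h1 := hT.thin (-x) (by rwa [abs_neg]) (neg_ne_zero.mpr hx0)
    refine le_trans (Finset.card_le_card ?_) h1
    intro j hj
    simp only [Finset.mem_filter, Finset.mem_univ, true_and] at hj ⊢
    omega
  mid := by
    refine le_trans (Finset.card_le_card ?_) hT.mid
    intro j hj
    simp only [Finset.mem_filter, Finset.mem_univ, true_and] at hj ⊢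
    omega
  mid' := by
    intro h j hj
    exact hT.mid' h j (by omega)

end Top9

/-- the Lie theorem -/
theorem st_TOP (hGRA : ST_GRA) (hCMP : ST_CMP) (hEND : ST_END) : ST_TOP := by
  intro K _ _ _ n w h ψ P a hThin hdet hsym hbrk hirr hiso hgr
  classical
  obtain ⟨m, hm, hbd, htop, hin, hth⟩ := hThin
  set p : Matrix (Fin n) (Fin n) K := (P : Matrix (Fin n) (Fin n) K) with hp
  set q : Matrix (Fin n) (Fin n) K :=
    ((P⁻¹ : Matrix.GeneralLinearGroup (Fin n) K) : Matrix (Fin n) (Fin n) K) with hq
  have hpq : p * q = 1 := by
    rw [hp, hq, ← Matrix.GeneralLinearGroup.coe_mul, mul_inv_cancel,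
      Matrix.GeneralLinearGroup.coe_one]
  have hqp : q * p = 1 := by
    rw [hp, hq, ← Matrix.GeneralLinearGroup.coe_mul, inv_mul_cancel,
      Matrix.GeneralLinearGroup.coe_one]
  have hpq' : ∀ X : Matrix (Fin n) (Fin n) K, p * (q * X) = X := fun X => by
    rw [← Matrix.mul_assoc, hpq, Matrix.one_mul]
  have hqp' : ∀ X : Matrix (Fin n) (Fin n) K, q * (p * X) = X := fun X => by
    rw [← Matrix.mul_assoc, hqp, Matrix.one_mul]
  have hTqp : p.transpose * q.transpose = 1 := by
    rw [← Matrix.transpose_mul, hqp, Matrix.transpose_one]
  have hTqp' : ∀ X : Matrix (Fin n) (Fin n) K, p.transpose * (q.transpose * X) = X := fun X => by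
    rw [← Matrix.mul_assoc, hTqp, Matrix.one_mul]
  -- conjugation
  let c : Matrix (Fin n) (Fin n) K →ₗ[K] Matrix (Fin n) (Fin n) K :=
    { toFun := fun X => p * X * q
      map_add' := by
        intro X Y
        rw [Matrix.mul_add, Matrix.add_mul]
      map_smul' := by
        intro r X
        rw [Matrix.mul_smul, Matrix.smul_mul, RingHom.id_apply] }
  have hc : ∀ X, c X = p * X * q := fun X => rfl
  let a' : Submodule K (Matrix (Fin n) (Fin n) K) := a.comap c
  have hmem : ∀ X, X ∈ a' ↔ p * X * q ∈ a := fun X => Iff.rfl
  set ψ' : Matrix (Fin n) (Fin n) K := p.transpose * ψ * p with hψ'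
  let d : Fin n → ℤ := fun j => 2 * (h j : ℤ) - (w : ℤ)
  let N : ℤ := 2 * (m : ℤ) - (w : ℤ)
  have hD : Matrix.diagonal (fun j => (d j : K)) ∈ a' := by
    rw [hmem]
    have : (fun j => (d j : K)) = fun j => 2 * (h j : K) - (w : K) := by
      funext j
      simp only [d]
      push_cast
      rfl
    rw [this]
    exact hgr
  have hiso' : ∀ A ∈ a', A.transpose * ψ' + ψ' * A = 0 := by
    intro A hA
    have h1 := hiso _ ((hmem A).mp hA)
    have h2 : p.transpose * ((p * A * q).transpose * ψ + ψ * (p * A * q)) * p = 0 := by
      rw [h1, Matrix.mul_zero, Matrix.zero_mul]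
    rw [Matrix.transpose_mul, Matrix.transpose_mul] at h2
    rw [← h2, hψ']
    simp only [Matrix.mul_add, Matrix.add_mul, Matrix.mul_assoc, hTqp', hqp, Matrix.mul_one]
  have hbrk' : Brk a' := by
    intro A hA B hB
    rw [hmem] at hA hB ⊢
    have h1 := hbrk _ hA _ hB
    have h2 : p * (A * B - B * A) * q = p * A * q * (p * B * q) - p * B * q * (p * A * q) := by
      simp only [Matrix.mul_sub, Matrix.sub_mul, Matrix.mul_assoc, hqp']
    rw [h2]
    exact h1
  have hdj : ∀ i j, d i = d j ↔ h i = h j := by
    intro i j
    simp only [d]
    omega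
  have hcard : ∀ x : ℤ, |x| < N → (Finset.univ.filter fun j => d j = x).card ≤
      if x = 0 then 2 else 1 := by
    intro x hx
    by_cases he : (Finset.univ.filter fun j => d j = x) = ∅
    · rw [he, Finset.card_empty]
      exact Nat.zero_le _
    · obtain ⟨j₀, hj₀⟩ := Finset.nonempty_iff_ne_empty.mpr he
      have hj₀' : d j₀ = x := (Finset.mem_filter.mp hj₀).2
      rw [abs_lt] at hx
      simp only [d, N] at hj₀' hx
      have h1 := hth (h j₀) (by omega) (by omega)
      have h2 : (Finset.univ.filter fun j => d j = x) =
          Finset.univ.filter fun j => h j = h j₀ := by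
        ext j
        simp only [Finset.mem_filter, Finset.mem_univ, true_and, d]
        omega
      rw [h2]
      refine h1.trans (le_of_eq ?_)
      by_cases h0 : x = 0
      · rw [if_pos h0, if_pos (by omega)]
      · rw [if_neg h0, if_neg (by omega)]
  have hT : TopD ((-1 : K) ^ w) ψ' d N a' :=
    { unit := by
        rw [hψ', Matrix.det_mul, Matrix.det_mul, Matrix.det_transpose]
        have hpd : p.det ≠ 0 := by
          intro h0
          have := congrArg Matrix.det hpq
          rw [Matrix.det_mul, h0, zero_mul, Matrix.det_one] at this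
          exact zero_ne_one this
        exact mul_ne_zero (mul_ne_zero hpd hdet) hpd
      symm := by
        rw [hψ', Matrix.transpose_mul, Matrix.transpose_mul, Matrix.transpose_transpose, hsym,
          Matrix.smul_mul, Matrix.mul_smul, Matrix.mul_assoc]
      sign := neg_one_pow_eq_or K w
      grad := by
        intro i j hij
        have h1 := congrFun (congrFun (hiso' _ hD) i) j
        rw [Matrix.diagonal_transpose, Matrix.add_apply, Matrix.diagonal_mul,
          Matrix.mul_diagonal, Matrix.zero_apply] at h1
        have h2 : ((d i + d j : ℤ) : K) * ψ' i j = 0 := by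
          rw [← h1]
          push_cast
          ring
        have h3 := (mul_eq_zero.mp h2).resolve_right hij
        exact_mod_cast h3
      brk := hbrk'
      iso := hiso'
      irr := by
        intro U hU
        have h1 := hirr (U.comap q.mulVecLin) (by
          intro A hA v hv
          rw [Submodule.mem_comap, Matrix.mulVecLin_apply] at hv ⊢
          have h2 : q * A * p ∈ a' := by
            rw [hmem]
            have : p * (q * A * p) * q = A := by
              rw [Matrix.mul_assoc q, hpq', Matrix.mul_assoc, hpq, Matrix.mul_one]
            rw [this]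
            exact hA
          have h3 := hU _ h2 _ hv
          rw [Matrix.mulVec_mulVec, Matrix.mul_assoc, Matrix.mul_assoc, hpq, Matrix.mul_one] at h3
          rw [Matrix.mulVec_mulVec]
          exact h3)
        rcases h1 with h1 | h1
        · left
          rw [Submodule.eq_bot_iff]
          intro u hu
          have h2 : p.mulVec u ∈ U.comap q.mulVecLin := by
            rw [Submodule.mem_comap, Matrix.mulVecLin_apply, Matrix.mulVec_mulVec, hqp,
              Matrix.one_mulVec]
            exact hu
          rw [h1, Submodule.mem_bot] at h2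
          have h3 := congrArg q.mulVec h2
          rwa [Matrix.mulVec_mulVec, hqp, Matrix.one_mulVec, Matrix.mulVec_zero] at h3
        · right
          rw [Submodule.eq_top_iff']
          intro u
          have h2 : p.mulVec u ∈ U.comap q.mulVecLin := by
            rw [h1]
            exact Submodule.mem_top
          rwa [Submodule.mem_comap, Matrix.mulVecLin_apply, Matrix.mulVec_mulVec, hqp,
            Matrix.one_mulVec] at h2
      comp := hGRA K n a' d fun A hA => hbrk' _ hD _ hA
      pos := by
        simp only [N]
        omega
      bd := by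
        intro j
        have := hbd j
        rw [abs_le]
        simp only [d, N]
        omega
      top := by
        refine htop.trans (Finset.card_le_card ?_)
        intro j hj
        simp only [Finset.mem_filter, Finset.mem_univ, true_and, d, N] at hj ⊢
        omega
      inner := by
        obtain ⟨j, hj1, hj2⟩ := hin
        have := hbd j
        refine ⟨j, ?_⟩
        rw [abs_lt]
        simp only [d, N]
        omega
      thin := by
        intro x hx hx0
        have := hcard x hx
        rwa [if_neg hx0] at this
      mid := by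
        have := hcard 0 (by
          rw [abs_zero]
          simp only [N]
          omega)
        rwa [if_pos rfl] at this
      mid' := by
        intro he j hj
        have hodd : Odd w := by
          by_contra hno
          rw [Nat.not_odd_iff_even] at hno
          rw [hno.neg_one_pow] at he
          have h2 : (2 : K) = 0 := by
            have : (1 : K) + 1 = 0 := by
              nth_rewrite 1 [he]
              ring
            rw [← this]
            norm_num
          exact two_ne_zero h2
        obtain ⟨k, hk⟩ := hodd
        simp only [d] at hj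
        omega }
  have h1 := hCMP K n _ ψ' d N a' hT
  have h2 := hCMP K n _ ψ' _ N a' (Top9.neg hT)
  have h3 := hEND K n _ ψ' d N a' hT h1 (by
    intro A hA x y hx hy
    have h4 := h2 A hA x y (fun j hj => by
      have := hx j hj
      omega) (fun j hj => by
      have := hy j hj
      omega)
    have h5 : inn (fun j => - d j) N (A.mulVec y) = inn d N (A.mulVec y) := by
      funext j
      simp only [inn, abs_neg]
    rwa [h5] at h4)
  intro A hA
  have h4 : q * A * p ∈ a' := by
    refine h3 _ ?_
    have h5 : p.transpose * (A.transpose * ψ + ψ * A) * p = 0 := by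
      rw [hA, Matrix.mul_zero, Matrix.zero_mul]
    rw [← h5, hψ']
    simp only [Matrix.mul_add, Matrix.add_mul, Matrix.mul_assoc, Matrix.transpose_mul, hpq']
    congr 1
    have h6 : q.transpose * (p.transpose * (ψ * p)) = ψ * p := by
      rw [← Matrix.mul_assoc, ← Matrix.transpose_mul, hpq, Matrix.transpose_one, Matrix.one_mul]
    rw [h6]
  rw [hmem] at h4
  have h7 : p * (q * A * p) * q = A := by
    rw [Matrix.mul_assoc q, hpq', Matrix.mul_assoc, hpq, Matrix.mul_one]
  rwa [h7] at h4

end MT
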